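import Mathlib
import Pool.Agent.Q60.GS.Thm

/-!
# The norm-degree inequality for the correspondences `G_r`

Let `X` be a smooth projective variety of dimension `n` over an algebraic closure of a finite field, and
let `G_r`, for a rational number `r > 0`, be the correspondence which acts on the cohomology group of
degree `k` as the multiplication by `r ^ k`.

(1) If the degree of a cycle of codimension `n` on `X × X` is its intersection number with
`(p_1^* h + p_2^* h') ^ n`, for ample divisors `h`, `h'` on `X`, then for each norm on the space
`N^n (X × X)_ℝ` of the cycles modulo numerical equivalence there is a constant `C` such that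
`‖G_r ∘ f‖ ≤ C deg (G_r ∘ f)` for all rational `r > 0` and all effective cycles `f`, in particular for
all dynamical correspondences.

(2) The condition on the polarization cannot be omitted: if `X` is a curve of genus at least two, there
are an ample divisor `D` on `X × X` and a rational number `r > 0` such that the degree of `G_r = G_r ∘ Δ`
with respect to `D` is negative. (The diagonal `Δ` is a dynamical correspondence, so the inequality is
false for `H = D`, `f = Δ` and all constants `C`.)

The proof of (1). Let `X`, `h`, `h'` be defined over the field with `q` elements and let `F` be the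
Frobenius endomorphism. As each cycle is defined over a finite field and the space of the numerical
classes has finite dimension, there is a power `Φ = F ^ s`, `Q = q ^ s`, which commutes with all
correspondences up to numerical equivalence; by the trace formula, the nilpotent elements of the algebra
generated by `Φ` are numerically equivalent to zero, so that the composition with `Φ` is a semisimple
operator on `N^n (X × X)`, with eigenvalues of absolute value `Q ^ (k / 2)` on the component of
degree `k` (Deligne). Hence the component of `f` of degree `k` is bounded, uniformly in `m ∈ ℤ`, by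
`Q ^ (- m k / 2)` times the norm of the effective cycle `Φ ^ m ∘ f` (for `m < 0` one takes the
transpose of `Φ ^ (- m)` and divides by `Q ^ (- m n)`), and the norm of an effective cycle is bounded by
its degree. The degree of `Φ ^ m ∘ f` is the degree of `G_r ∘ f` for `r ^ 2 = Q ^ m`. For a general `r`
one takes `m` with `Q ^ m ≤ r ^ 2 < Q ^ (m + 1)`.

The proof of (2): `D = f₁ + (25 / 16) f₂ + (201 / 160 g) (Δ - f₁ - f₂)`, `r = 4 / 5`.
-/

namespace Pool.Agent.Results.MP_77d3c1_ag.FrobeniusComparison

open Pool.Agent.Q60.GS

/-- The inequality `‖G_r ∘ f‖ ≤ C deg (G_r ∘ f)` for polarizations `p_1^* h + p_2^* h'`, and its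
failure for other polarizations. -/
theorem result :
    (∀ (n q : ℕ), 1 < q → ∀ (X : Variety n q) (ν : Seminorm ℝ X.N), ∃ C : ℝ, 0 < C ∧ X.Bounded ν C) ∧
    (∀ g : ℕ, 2 ≤ g → ∀ X : CurveSq g, ∃ D : X.P.NS, X.IsAmple D ∧
      ∃ r : ℚ, 0 < r ∧ X.P.dot (X.G r) D < 0) :=
  ⟨fun _ _ hq X ν => X.bounded hq ν, fun _ hg X => X.exists_ample hg⟩

end Pool.Agent.Results.MP_77d3c1_ag.FrobeniusComparison
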